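import Pool.Agent.H79.BR.Targets

/-!
# The `L¹` norm of the kernel
-/

set_option autoImplicit false

namespace Pool.Agent.H74.BR

open MeasureTheory Set
open Pool.Agent.H83.LS Pool.Agent.H93.AR Pool.Agent.H54.LS Pool.Agent.H14.LS Pool.Agent.H79.BR
open scoped ENNReal NNReal

theorem nu_lint (n : ℕ) (G : ℝ → ℝ≥0∞) (hG : Measurable G) :
    ∫⁻ ρ : Ioi (0 : ℝ), G ρ ∂(nu n) =
      ∫⁻ t in Ioi (0 : ℝ), ENNReal.ofReal (t ^ (n - 1)) * G t := by
  have h1 : Measurable fun ρ : Ioi (0 : ℝ) => ENNReal.ofReal ((ρ : ℝ) ^ (n - 1)) :=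
    (ENNReal.measurable_ofReal.comp ((measurable_id.pow_const _).comp measurable_subtype_coe))
  have h2 : Measurable fun ρ : Ioi (0 : ℝ) => G ρ := hG.comp measurable_subtype_coe
  show ∫⁻ ρ : Ioi (0 : ℝ), G ρ ∂((Measure.comap Subtype.val volume).withDensity
    fun r : Ioi (0 : ℝ) => ENNReal.ofReal ((r : ℝ) ^ (n - 1))) = _
  rw [lintegral_withDensity_eq_lintegral_mul _ h1 h2]
  exact lintegral_subtype_comap measurableSet_Ioi
    (fun t : ℝ => ENNReal.ofReal (t ^ (n - 1)) * G t)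

theorem hor_smul {n : ℕ} (c : ℝ) (x : EE (n + 1)) : hor (c • x) = |c| * hor x := by
  unfold hor
  have h1 : (c • x) (Fin.last n) = c * x (Fin.last n) := rfl
  rw [h1, norm_smul, Real.norm_eq_abs]
  have h2 : (|c| * ‖x‖) ^ 2 - (c * x (Fin.last n)) ^ 2 =
      |c| ^ 2 * (‖x‖ ^ 2 - x (Fin.last n) ^ 2) := by
    rw [mul_pow, mul_pow, sq_abs]
    ring
  rw [h2, Real.sqrt_mul (by positivity), Real.sqrt_sq (abs_nonneg c)]

/-- the radial integral -/
theorem radial0 : ∃ C : ℝ, 0 ≤ C ∧ ∀ lam t : ℝ, 0 < lam →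
    ∫⁻ s : ℝ, ENNReal.ofReal (((1 + lam * |s - t|) ^ 2)⁻¹) ≤ ENNReal.ofReal (C / lam) := by
  have hi : Integrable fun s : ℝ => ((1 + |s|) ^ 2)⁻¹ := by
    have h := integrable_one_add_norm (E := ℝ) (μ := volume) (r := 2) (by simp)
    refine h.congr (Filter.Eventually.of_forall fun s => ?_)
    simp only
    rw [Real.rpow_neg (by positivity), Real.norm_eq_abs]
    norm_num
  refine ⟨∫ s : ℝ, ((1 + |s|) ^ 2)⁻¹, integral_nonneg fun s => by positivity, ?_⟩
  intro lam t hl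
  have h1 : ∫⁻ s : ℝ, ENNReal.ofReal (((1 + lam * |s - t|) ^ 2)⁻¹) =
      ∫⁻ s : ℝ, ENNReal.ofReal (((1 + |lam * s|) ^ 2)⁻¹) := by
    rw [← lintegral_sub_right_eq_self (μ := (volume : Measure ℝ))
      (fun s : ℝ => ENNReal.ofReal (((1 + |lam * s|) ^ 2)⁻¹)) t]
    refine lintegral_congr fun s => ?_
    rw [abs_mul, abs_of_pos hl]
  have hi2 : Integrable fun s : ℝ => ((1 + |lam * s|) ^ 2)⁻¹ :=
    (integrable_comp_mul_left_iff (fun s : ℝ => ((1 + |s|) ^ 2)⁻¹) hl.ne').mpr hi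
  rw [h1, ← ofReal_integral_eq_lintegral_ofReal hi2
    (Filter.Eventually.of_forall fun s => by positivity)]
  apply ENNReal.ofReal_le_ofReal
  have h2 := Measure.integral_comp_mul_left (fun s : ℝ => ((1 + |s|) ^ 2)⁻¹) lam
  rw [h2, smul_eq_mul, abs_of_pos (inv_pos.mpr hl)]
  rw [div_eq_inv_mul]

theorem radial (n : ℕ) : ∃ C : ℝ, 0 ≤ C ∧ ∀ lam t : ℝ, 1 ≤ lam → t ≤ 2 → 0 ≤ t →
    ∫⁻ ρ : Ioi (0 : ℝ), ENNReal.ofReal (((1 + lam * |(ρ : ℝ) - t|) ^ (n + 2))⁻¹) ∂(nu (n + 1)) ≤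
      ENNReal.ofReal (C / lam) := by
  obtain ⟨C, hC0, hC⟩ := radial0
  refine ⟨2 ^ n * C, by positivity, ?_⟩
  intro lam t hl ht ht0
  have hG : Measurable fun s : ℝ => ENNReal.ofReal (((1 + lam * |s - t|) ^ (n + 2))⁻¹) := by
    fun_prop
  rw [nu_lint (n + 1) _ hG]
  calc ∫⁻ s in Ioi (0 : ℝ), ENNReal.ofReal (s ^ (n + 1 - 1)) *
        ENNReal.ofReal (((1 + lam * |s - t|) ^ (n + 2))⁻¹)
      ≤ ∫⁻ s in Ioi (0 : ℝ), ENNReal.ofReal (2 ^ n) *
        ENNReal.ofReal (((1 + lam * |s - t|) ^ 2)⁻¹) := by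
        refine setLIntegral_mono (by fun_prop) fun s hs => ?_
        have hs0 : 0 < s := hs
        rw [← ENNReal.ofReal_mul (by positivity), ← ENNReal.ofReal_mul (by positivity)]
        apply ENNReal.ofReal_le_ofReal
        have hA : 0 < 1 + lam * |s - t| := by positivity
        have h1 : s ≤ 2 * (1 + lam * |s - t|) := by
          have h2 : s - t ≤ |s - t| := le_abs_self _
          have h3 : |s - t| ≤ lam * |s - t| := by nlinarith [abs_nonneg (s - t)]
          nlinarith [abs_nonneg (s - t)]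
        have h4 : s ^ n ≤ 2 ^ n * (1 + lam * |s - t|) ^ n := by
          rw [← mul_pow]
          exact pow_le_pow_left₀ hs0.le h1 n
        rw [Nat.add_sub_cancel, pow_add, mul_inv]
        calc s ^ n * (((1 + lam * |s - t|) ^ n)⁻¹ * ((1 + lam * |s - t|) ^ 2)⁻¹)
            ≤ (2 ^ n * (1 + lam * |s - t|) ^ n) *
              (((1 + lam * |s - t|) ^ n)⁻¹ * ((1 + lam * |s - t|) ^ 2)⁻¹) :=
              mul_le_mul_of_nonneg_right h4 (by positivity)
          _ = 2 ^ n * ((1 + lam * |s - t|) ^ 2)⁻¹ := by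
              field_simp
    _ ≤ ∫⁻ s : ℝ, ENNReal.ofReal (2 ^ n) * ENNReal.ofReal (((1 + lam * |s - t|) ^ 2)⁻¹) :=
        setLIntegral_le_lintegral _ _
    _ = ENNReal.ofReal (2 ^ n) * ∫⁻ s : ℝ, ENNReal.ofReal (((1 + lam * |s - t|) ^ 2)⁻¹) := by
        rw [lintegral_const_mul _ (by fun_prop)]
    _ ≤ ENNReal.ofReal (2 ^ n) * ENNReal.ofReal (C / lam) := by
        gcongr
        exact hC lam t (by linarith)
    _ = ENNReal.ofReal (2 ^ n * C / lam) := by
        rw [← ENNReal.ofReal_mul (by positivity)]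
        congr 1
        ring

/-- the angular decay -/
theorem ang {lam α h : ℝ} (hl : 0 < lam) (hα : 0 < α) (hX : 16 ≤ lam * α ^ 2) (hh : 0 ≤ h)
    (N : ℕ) : ((1 + Real.sqrt lam * max 0 (h - 4 * α)) ^ N)⁻¹ ≤
      9 ^ N * ((1 + h / α) ^ N)⁻¹ := by
  have hs : 4 / α ≤ Real.sqrt lam := by
    apply Real.le_sqrt_of_sq_le
    rw [div_pow, div_le_iff₀ (by positivity)]
    linarith
  have hm : 0 ≤ max 0 (h - 4 * α) := le_max_left _ _
  have h1 : (1 + h / α) / 9 ≤ 1 + Real.sqrt lam * max 0 (h - 4 * α) := by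
    by_cases hc : 8 * α ≤ h
    · have h2 : h / 2 ≤ max 0 (h - 4 * α) := le_trans (by linarith) (le_max_right _ _)
      have h3 : 4 / α * (h / 2) ≤ Real.sqrt lam * max 0 (h - 4 * α) :=
        mul_le_mul hs h2 (by positivity) (Real.sqrt_nonneg _)
      have h4 : 4 / α * (h / 2) = 2 * (h / α) := by ring
      have h5 : 0 ≤ h / α := by positivity
      linarith
    · push Not at hc
      have h2 : h / α < 8 := by
        rw [div_lt_iff₀ hα]
        exact hc
      have h3 : 0 ≤ Real.sqrt lam * max 0 (h - 4 * α) := by positivity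
      linarith
  have h0 : 0 < (1 + h / α) / 9 := by positivity
  calc ((1 + Real.sqrt lam * max 0 (h - 4 * α)) ^ N)⁻¹ ≤ (((1 + h / α) / 9) ^ N)⁻¹ := by
        apply inv_anti₀ (by positivity)
        exact pow_le_pow_left₀ h0.le h1 N
    _ = 9 ^ N * ((1 + h / α) ^ N)⁻¹ := by
        rw [div_pow, inv_div, div_eq_mul_inv]

theorem pf_cl1 (hCKB : T_CKB) (hCKL : T_CKL) (hCX1 : T_CX1) (hCX2 : T_CX2) (hCCA : T_CCA) :
    T_CL1 := by
  intro n hn
  obtain ⟨C1, hC1⟩ := hCX1 n hn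
  obtain ⟨C2, hC2⟩ := hCX2 n hn
  obtain ⟨C3, hC30, hC3⟩ := hCKL n 0 hn
  obtain ⟨C4, hC40, hC4⟩ := hCKB n (n + 2) hn
  obtain ⟨C5, hC50, hC5⟩ := hCCA n hn
  obtain ⟨C6, hC60, hC6⟩ := radial n
  have hball : volume (Metric.closedBall (0 : EE (n + 1)) (1 / 4)) < ⊤ :=
    measure_closedBall_lt_top
  set V : ℝ := (volume (Metric.closedBall (0 : EE (n + 1)) (1 / 4))).toReal with hV
  have hV0 : 0 ≤ V := ENNReal.toReal_nonneg
  refine ⟨C1 + C2 + C3 * V + C4 * 9 ^ (n + 2) * C5 * C6, by positivity, ?_⟩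
  intro lam Lam t hl hL hLl ht
  have hX0 : 0 ≤ Lam ^ 2 / lam := by positivity
  have hbase : 1 ≤ (1 + Lam ^ 2 / lam) ^ ((n : ℝ) / 2) :=
    Real.one_le_rpow (by linarith) (by positivity)
  have key : ∀ c : ℝ, 0 ≤ c → c ≤ C1 + C2 + C3 * V + C4 * 9 ^ (n + 2) * C5 * C6 →
      ENNReal.ofReal c ≤ ENNReal.ofReal ((C1 + C2 + C3 * V + C4 * 9 ^ (n + 2) * C5 * C6) *
        (1 + Lam ^ 2 / lam) ^ ((n : ℝ) / 2)) := by
    intro c hc0 hc
    apply ENNReal.ofReal_le_ofReal
    calc c ≤ c * (1 + Lam ^ 2 / lam) ^ ((n : ℝ) / 2) := le_mul_of_one_le_right hc0 hbase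
      _ ≤ _ := by gcongr
  by_cases hcase1 : lam ≤ 1024
  · refine le_trans (hC1 lam Lam t hl hL hLl ht hcase1) ?_
    rw [← ENNReal.ofReal_coe_nnreal]
    apply key _ (NNReal.coe_nonneg _)
    have : 0 ≤ C3 * V + C4 * 9 ^ (n + 2) * C5 * C6 := by positivity
    have h2 : (0 : ℝ) ≤ C2 := C2.2
    linarith
  push Not at hcase1
  by_cases hcase2 : Lam ^ 2 ≤ 16 * lam
  · refine le_trans (hC2 lam Lam t hcase1.le hL ht hcase2) ?_
    rw [← ENNReal.ofReal_coe_nnreal]
    apply key _ (NNReal.coe_nonneg _)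
    have : 0 ≤ C3 * V + C4 * 9 ^ (n + 2) * C5 * C6 := by positivity
    have h2 : (0 : ℝ) ≤ C1 := C1.2
    linarith
  push Not at hcase2
  have hl0 : 0 < lam := by linarith
  have hL0 : 0 < Lam := by linarith
  set α := Lam / lam with hα
  have hα0 : 0 < α := by positivity
  have hα4 : α ≤ 4 := by
    rw [hα, div_le_iff₀ hl0]
    exact hLl
  have hXα : lam * α ^ 2 = Lam ^ 2 / lam := by
    rw [hα]
    field_simp
  have hX16 : 16 ≤ lam * α ^ 2 := by
    rw [hXα, le_div_iff₀ hl0]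
    exact hcase2.le
  -- the kernel
  set K : EE (n + 1) → ℝ≥0∞ := fun x => ‖MK (mj n lam Lam t) x‖ₑ with hK
  set B : Set (EE (n + 1)) := Metric.closedBall (0 : EE (n + 1)) (1 / 4) with hB
  have hBm : MeasurableSet B := Metric.isClosed_closedBall.measurableSet
  set D : ℝ := C4 * lam ^ ((n : ℝ) / 2 + 1) * 9 ^ (n + 2) with hD
  have hD0 : 0 ≤ D := by positivity
  set F : EE (n + 1) → ℝ≥0∞ := fun x => ENNReal.ofReal D *
    (ENNReal.ofReal (((1 + lam * |‖x‖ - t|) ^ (n + 2))⁻¹) *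
      ENNReal.ofReal (((1 + (hor x / ‖x‖) / α) ^ (n + 2))⁻¹)) with hF
  have hFm : Measurable F := by
    have := hor_cont (n := n)
    apply Measurable.const_mul
    have m1 : Measurable fun x : EE (n + 1) =>
        ENNReal.ofReal (((1 + lam * |‖x‖ - t|) ^ (n + 2))⁻¹) := by fun_prop
    have m2 : Measurable fun x : EE (n + 1) =>
        ENNReal.ofReal (((1 + (hor x / ‖x‖) / α) ^ (n + 2))⁻¹) := by
      apply ENNReal.measurable_ofReal.comp
      apply Measurable.inv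
      apply Measurable.pow_const
      apply Measurable.const_add
      apply Measurable.div_const
      exact this.measurable.div measurable_norm
    exact m1.mul m2
  have hin : ∫⁻ x in B, K x ≤ ENNReal.ofReal (C3 * V) := by
    calc ∫⁻ x in B, K x ≤ ∫⁻ _x in B, ENNReal.ofReal C3 := by
          refine setLIntegral_mono measurable_const fun x hx => ?_
          rw [hB, Metric.mem_closedBall, dist_zero_right] at hx
          have h := hC3 lam Lam t x hl hL0 hLl ht.1 hx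
          rw [pow_zero, inv_one, mul_one] at h
          rw [hK]
          simp only
          rw [← ofReal_norm]
          exact ENNReal.ofReal_le_ofReal h
      _ = ENNReal.ofReal C3 * volume B := by rw [setLIntegral_const]
      _ = ENNReal.ofReal (C3 * V) := by
          rw [ENNReal.ofReal_mul hC30, hV, ENNReal.ofReal_toReal hball.ne]
  have hout : ∫⁻ x in Bᶜ, K x ≤ ∫⁻ x, F x := by
    refine le_trans (setLIntegral_mono hFm fun x hx => ?_) (setLIntegral_le_lintegral _ _)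
    rw [mem_compl_iff, hB, Metric.mem_closedBall, dist_zero_right, not_le] at hx
    have h := hC4 lam Lam t x hl hL0 hLl hcase2.le ht hx.le
    have hx0 : 0 < ‖x‖ := by linarith
    have hang := ang (lam := lam) (α := α) (h := hor x / ‖x‖) hl0 hα0 hX16
      (by have := Pool.Agent.H14.LS.hor_nonneg x; positivity) (n + 2)
    rw [hK, hF]
    simp only
    rw [← ofReal_norm, ← ENNReal.ofReal_mul (by positivity), ← ENNReal.ofReal_mul hD0]
    apply ENNReal.ofReal_le_ofReal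
    refine h.trans ?_
    calc C4 * lam ^ ((n : ℝ) / 2 + 1) * ((1 + lam * |‖x‖ - t|) ^ (n + 2))⁻¹ *
          ((1 + Real.sqrt lam * max 0 (hor x / ‖x‖ - 4 * (Lam / lam))) ^ (n + 2))⁻¹
        ≤ C4 * lam ^ ((n : ℝ) / 2 + 1) * ((1 + lam * |‖x‖ - t|) ^ (n + 2))⁻¹ *
          (9 ^ (n + 2) * ((1 + (hor x / ‖x‖) / α) ^ (n + 2))⁻¹) := by
          apply mul_le_mul_of_nonneg_left hang
          positivity
      _ = _ := by rw [hD]; ring
  -- polar coordinates
  have hpolar : ∫⁻ x, F x ≤ ENNReal.ofReal (C4 * 9 ^ (n + 2) * C5 * C6 *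
      (1 + Lam ^ 2 / lam) ^ ((n : ℝ) / 2)) := by
    have hmp := mp_polar (n + 1) (by omega)
    have hm1 : Measurable fun w : Sp (n + 1) =>
        ENNReal.ofReal (((1 + hor (w : EE (n + 1)) / α) ^ (n + 2))⁻¹) := by
      have := (hor_cont (n := n)).measurable.comp
        (measurable_subtype_coe : Measurable (Subtype.val : Sp (n + 1) → EE (n + 1)))
      apply ENNReal.measurable_ofReal.comp
      apply Measurable.inv
      apply Measurable.pow_const
      apply Measurable.const_add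
      exact this.div_const _
    have hm2 : Measurable fun ρ : Ioi (0 : ℝ) =>
        ENNReal.ofReal (((1 + lam * |(ρ : ℝ) - t|) ^ (n + 2))⁻¹) := by
      have : Measurable fun s : ℝ => ENNReal.ofReal (((1 + lam * |s - t|) ^ (n + 2))⁻¹) := by
        fun_prop
      exact this.comp measurable_subtype_coe
    have e1 : ∀ q : Sp (n + 1) × Ioi (0 : ℝ), F ((q.2 : ℝ) • (q.1 : EE (n + 1))) =
        ENNReal.ofReal D * (ENNReal.ofReal (((1 + hor (q.1 : EE (n + 1)) / α) ^ (n + 2))⁻¹) *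
          ENNReal.ofReal (((1 + lam * |(q.2 : ℝ) - t|) ^ (n + 2))⁻¹)) := by
      rintro ⟨w, ρ⟩
      have hρ : 0 < (ρ : ℝ) := ρ.2
      have hw : ‖(w : EE (n + 1))‖ = 1 := by
        have := w.2
        rwa [mem_sphere_zero_iff_norm] at this
      have h1 : ‖(ρ : ℝ) • (w : EE (n + 1))‖ = ρ := by
        rw [norm_smul, hw, mul_one, Real.norm_of_nonneg hρ.le]
      have h2 : hor ((ρ : ℝ) • (w : EE (n + 1))) / ρ = hor (w : EE (n + 1)) := by
        rw [hor_smul, abs_of_pos hρ]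
        field_simp
      rw [hF]
      simp only
      rw [h1, h2]
      ring
    have hm3 : Measurable fun q : Sp (n + 1) × Ioi (0 : ℝ) =>
        ENNReal.ofReal (((1 + hor (q.1 : EE (n + 1)) / α) ^ (n + 2))⁻¹) *
          ENNReal.ofReal (((1 + lam * |(q.2 : ℝ) - t|) ^ (n + 2))⁻¹) :=
      (hm1.comp measurable_fst).mul (hm2.comp measurable_snd)
    rw [← hmp.lintegral_comp hFm, lintegral_congr e1, lintegral_const_mul _ hm3,
      lintegral_prod_mul hm1.aemeasurable hm2.aemeasurable]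
    calc ENNReal.ofReal D * ((∫⁻ w : Sp (n + 1),
          ENNReal.ofReal (((1 + hor (w : EE (n + 1)) / α) ^ (n + 2))⁻¹) ∂(sg (n + 1))) *
          ∫⁻ ρ : Ioi (0 : ℝ), ENNReal.ofReal (((1 + lam * |(ρ : ℝ) - t|) ^ (n + 2))⁻¹)
            ∂(nu (n + 1)))
        ≤ ENNReal.ofReal D * (ENNReal.ofReal (C5 * α ^ n) * ENNReal.ofReal (C6 / lam)) := by
          gcongr
          · exact hC5 α hα0 hα4
          · exact hC6 lam t hl ht.2 (by linarith [ht.1])
      _ = ENNReal.ofReal (D * (C5 * α ^ n * (C6 / lam))) := by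
          rw [ENNReal.ofReal_mul (p := D) hD0, ENNReal.ofReal_mul (p := C5 * α ^ n) (by positivity)]
      _ ≤ _ := by
          apply ENNReal.ofReal_le_ofReal
          have h1 : D * (C5 * α ^ n * (C6 / lam)) =
              C4 * 9 ^ (n + 2) * C5 * C6 * (lam ^ ((n : ℝ) / 2) * α ^ n) := by
            rw [hD, Real.rpow_add hl0, Real.rpow_one]
            field_simp
          have h2 : lam ^ ((n : ℝ) / 2) * α ^ n = (Lam ^ 2 / lam) ^ ((n : ℝ) / 2) := by
            rw [← hXα, Real.mul_rpow hl0.le (by positivity)]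
            congr 1
            rw [← Real.rpow_natCast α 2, ← Real.rpow_mul hα0.le, ← Real.rpow_natCast]
            congr 1
            push_cast
            ring
          rw [h1, h2]
          apply mul_le_mul_of_nonneg_left _ (by positivity)
          exact Real.rpow_le_rpow hX0 (by linarith) (by positivity)
  calc ∫⁻ x, K x = (∫⁻ x in B, K x) + ∫⁻ x in Bᶜ, K x := (lintegral_add_compl _ hBm).symm
    _ ≤ ENNReal.ofReal (C3 * V) + ENNReal.ofReal (C4 * 9 ^ (n + 2) * C5 * C6 *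
      (1 + Lam ^ 2 / lam) ^ ((n : ℝ) / 2)) := add_le_add hin (hout.trans hpolar)
    _ = ENNReal.ofReal (C3 * V + C4 * 9 ^ (n + 2) * C5 * C6 *
      (1 + Lam ^ 2 / lam) ^ ((n : ℝ) / 2)) := by
        rw [ENNReal.ofReal_add (by positivity) (by positivity)]
    _ ≤ _ := by
        apply ENNReal.ofReal_le_ofReal
        have h1 : C3 * V ≤ C3 * V * (1 + Lam ^ 2 / lam) ^ ((n : ℝ) / 2) :=
          le_mul_of_one_le_right (by positivity) hbase
        have h2 : (0 : ℝ) ≤ (C1 + C2) * (1 + Lam ^ 2 / lam) ^ ((n : ℝ) / 2) := by positivity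
        nlinarith

end Pool.Agent.H74.BR
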