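import Pool.Agent.H79.BR.Targets

/-!
# The `L¹` norm of the kernel in a cylinder
-/

set_option autoImplicit false

namespace Pool.Agent.H74.BR

open MeasureTheory Set
open Pool.Agent.H83.LS Pool.Agent.H93.AR Pool.Agent.H54.LS Pool.Agent.H14.LS Pool.Agent.H79.BR
open scoped ENNReal NNReal

theorem tail_fin (n : ℕ) :
    ∫⁻ w : EE (n + 1), ENNReal.ofReal (((1 + ‖w‖) ^ (n + 4))⁻¹) < ⊤ := by
  have h := finite_integral_one_add_norm (E := EE (n + 1)) (μ := volume)
    (r := ((n + 4 : ℕ) : ℝ)) (by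
      rw [show Module.finrank ℝ (EE (n + 1)) = n + 1 from finrank_euclideanSpace_fin]
      push_cast
      linarith)
  refine lt_of_le_of_lt (le_of_eq (lintegral_congr fun w => ?_)) h
  rw [Real.rpow_neg (by positivity), Real.rpow_natCast]

/-- decay of the angular factor away from the axis -/
theorem angfar {lam α h : ℝ} (hl : 0 < lam) (hα : α ≤ 1 / 16) (hh : 1 / 2 ≤ h) (n : ℕ) :
    lam ^ ((n : ℝ) / 2 + 1) * ((1 + Real.sqrt lam * max 0 (h - 4 * α)) ^ (n + 4))⁻¹ ≤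
      4 ^ (n + 4) * lam⁻¹ := by
  have hs : 0 < Real.sqrt lam := Real.sqrt_pos.mpr hl
  have h1 : Real.sqrt lam / 4 ≤ 1 + Real.sqrt lam * max 0 (h - 4 * α) := by
    have h2 : 1 / 4 ≤ max 0 (h - 4 * α) := le_trans (by linarith) (le_max_right _ _)
    nlinarith
  have h3 : ((1 + Real.sqrt lam * max 0 (h - 4 * α)) ^ (n + 4))⁻¹ ≤
      ((Real.sqrt lam / 4) ^ (n + 4))⁻¹ := by
    apply inv_anti₀ (by positivity)
    exact pow_le_pow_left₀ (by positivity) h1 _
  have h4 : lam ^ ((n : ℝ) / 2 + 1) = Real.sqrt lam ^ (n + 2) := by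
    rw [Real.sqrt_eq_rpow, ← Real.rpow_natCast, ← Real.rpow_mul hl.le]
    congr 1
    push_cast
    ring
  have h5 : Real.sqrt lam ^ 2 = lam := Real.sq_sqrt hl.le
  calc lam ^ ((n : ℝ) / 2 + 1) * ((1 + Real.sqrt lam * max 0 (h - 4 * α)) ^ (n + 4))⁻¹
      ≤ lam ^ ((n : ℝ) / 2 + 1) * ((Real.sqrt lam / 4) ^ (n + 4))⁻¹ :=
        mul_le_mul_of_nonneg_left h3 (by positivity)
    _ = 4 ^ (n + 4) * lam⁻¹ := by
        rw [h4, ← h5, Real.sqrt_sq hs.le, div_pow, inv_div]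
        have : Real.sqrt lam ^ (n + 4) = Real.sqrt lam ^ (n + 2) * Real.sqrt lam ^ 2 := by
          rw [← pow_add]
        rw [this]
        field_simp

theorem pf_csw (hCKB : T_CKB) (hCKL : T_CKL) (hCX1 : T_CX1) (hCX2 : T_CX2) (hCL1 : T_CL1)
    (hCV1 : T_CV1) (hCV2 : T_CV2) : T_CSW := by
  intro n hn
  obtain ⟨C1, hC1⟩ := hCX1 n hn
  obtain ⟨C2, hC2⟩ := hCX2 n hn
  obtain ⟨C3, hC30, hC3⟩ := hCKL n 0 hn
  obtain ⟨C4, hC40, hC4⟩ := hCKB n 2 hn
  obtain ⟨C5, hC50, hC5⟩ := hCKB n (n + 4) hn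
  obtain ⟨C6, hC60, hC6⟩ := hCKB n 4 hn
  obtain ⟨C7, hC70, hC7⟩ := hCL1 n hn
  obtain ⟨C8, hC80, hC8⟩ := hCV1 n hn
  obtain ⟨C9, hC90, hC9⟩ := hCV2 n hn
  have hball : volume (Metric.closedBall (0 : EE (n + 1)) (1 / 4)) < ⊤ :=
    measure_closedBall_lt_top
  set V : ℝ := (volume (Metric.closedBall (0 : EE (n + 1)) (1 / 4))).toReal with hV
  have hV0 : 0 ≤ V := ENNReal.toReal_nonneg
  have htail := tail_fin n
  set J : ℝ := (∫⁻ w : EE (n + 1), ENNReal.ofReal (((1 + ‖w‖) ^ (n + 4))⁻¹)).toReal with hJ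
  have hJ0 : 0 ≤ J := ENNReal.toReal_nonneg
  set c1 : ℝ := C7 * 320 ^ ((n : ℝ) / 2) with hc1
  set c2 : ℝ := C3 * V with hc2
  set c3 : ℝ := C4 * C8 with hc3
  set c4 : ℝ := C5 * 4 ^ (n + 4) * 3 ^ (n + 4) * J with hc4
  set c5 : ℝ := C6 * C9 * 16 ^ ((n : ℝ) / 2) with hc5
  have hc10 : 0 ≤ c1 := by positivity
  have hc20 : 0 ≤ c2 := by positivity
  have hc30 : 0 ≤ c3 := by positivity
  have hc40 : 0 ≤ c4 := by positivity
  have hc50 : 0 ≤ c5 := by positivity
  have hC10 : (0 : ℝ) ≤ C1 := C1.2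
  have hC20 : (0 : ℝ) ≤ C2 := C2.2
  refine ⟨C1 + C2 + c1 + c2 + c3 + c4 + c5, by positivity, ?_⟩
  intro lam Lam t δ x hl hL hLl ht hlL hδ1 hδ2
  have hl0 : 0 < lam := by linarith
  have hL0 : 0 < Lam := by linarith
  have hδ0 : 0 < δ := lt_of_lt_of_le (by positivity) hδ1
  have hδL : 1 ≤ δ * Lam := by
    rwa [div_le_iff₀ hL0] at hδ1
  set Y : ℝ := (δ * Lam) ^ ((n : ℝ) / 2) with hY
  have hY1 : 1 ≤ Y := Real.one_le_rpow hδL (by positivity)
  have hY0 : 0 ≤ Y := by linarith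
  by_cases hcase1 : lam ≤ 1024
  · refine le_trans (setLIntegral_le_lintegral _ _) ?_
    refine le_trans (hC1 lam Lam t hl hL hLl ht hcase1) ?_
    rw [← ENNReal.ofReal_coe_nnreal]
    apply ENNReal.ofReal_le_ofReal
    calc (C1 : ℝ) ≤ C1 * Y := le_mul_of_one_le_right hC10 hY1
      _ ≤ _ := mul_le_mul_of_nonneg_right (by linarith) hY0
  push Not at hcase1
  by_cases hcase2 : Lam ^ 2 ≤ 16 * lam
  · refine le_trans (setLIntegral_le_lintegral _ _) ?_
    refine le_trans (hC2 lam Lam t hcase1.le hL ht hcase2) ?_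
    rw [← ENNReal.ofReal_coe_nnreal]
    apply ENNReal.ofReal_le_ofReal
    calc (C2 : ℝ) ≤ C2 * Y := le_mul_of_one_le_right hC20 hY1
      _ ≤ _ := mul_le_mul_of_nonneg_right (by linarith) hY0
  push Not at hcase2
  by_cases hcase3 : 1 / 64 ≤ δ
  · refine le_trans (setLIntegral_le_lintegral _ _) ?_
    refine le_trans (hC7 lam Lam t hl hL hLl ht) ?_
    apply ENNReal.ofReal_le_ofReal
    have h1 : Lam ^ 2 / lam ≤ 4 * Lam := by
      rw [div_le_iff₀ hl0]
      nlinarith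
    have h2 : 1 + Lam ^ 2 / lam ≤ 320 * (δ * Lam) := by nlinarith
    calc C7 * (1 + Lam ^ 2 / lam) ^ ((n : ℝ) / 2)
        ≤ C7 * (320 * (δ * Lam)) ^ ((n : ℝ) / 2) := by
          apply mul_le_mul_of_nonneg_left _ hC70
          exact Real.rpow_le_rpow (by positivity) h2 (by positivity)
      _ = c1 * Y := by
          rw [Real.mul_rpow (by norm_num) (by positivity), hc1, hY]
          ring
      _ ≤ _ := mul_le_mul_of_nonneg_right (by linarith) hY0
  push Not at hcase3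
  -- the kernel
  set K : EE (n + 1) → ℝ≥0∞ := fun x => ‖MK (mj n lam Lam t) x‖ₑ with hK
  have hA : ∫⁻ w in Metric.closedBall (0 : EE (n + 1)) (1 / 4), K w ≤
      ENNReal.ofReal (c2 * Y) := by
    calc ∫⁻ w in Metric.closedBall (0 : EE (n + 1)) (1 / 4), K w
        ≤ ∫⁻ _w in Metric.closedBall (0 : EE (n + 1)) (1 / 4), ENNReal.ofReal C3 := by
          refine setLIntegral_mono measurable_const fun x hx => ?_
          rw [Metric.mem_closedBall, dist_zero_right] at hx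
          have h := hC3 lam Lam t x hl hL0 hLl ht.1 hx
          rw [pow_zero, inv_one, mul_one] at h
          rw [hK]
          simp only
          rw [← ofReal_norm]
          exact ENNReal.ofReal_le_ofReal h
      _ = ENNReal.ofReal C3 * volume (Metric.closedBall (0 : EE (n + 1)) (1 / 4)) := by
          rw [setLIntegral_const]
      _ = ENNReal.ofReal c2 := by
          rw [hc2, ENNReal.ofReal_mul hC30, hV, ENNReal.ofReal_toReal hball.ne]
      _ ≤ _ := ENNReal.ofReal_le_ofReal (le_mul_of_one_le_right hc20 hY1)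
  have hBB : ∫⁻ w in {w : EE (n + 1) | (hor (x - w) ≤ δ ∧ hor w ≤ ‖w‖ / 2) ∧ 1 / 4 < ‖w‖}, K w ≤
      ENNReal.ofReal (c3 * Y) := by
    have hD0 : 0 ≤ C4 * lam ^ ((n : ℝ) / 2 + 1) := by positivity
    calc ∫⁻ w in {w : EE (n + 1) | (hor (x - w) ≤ δ ∧ hor w ≤ ‖w‖ / 2) ∧ 1 / 4 < ‖w‖}, K w
        ≤ ∫⁻ w in {w : EE (n + 1) | (hor (x - w) ≤ δ ∧ hor w ≤ ‖w‖ / 2) ∧ 1 / 4 < ‖w‖},
          ENNReal.ofReal (C4 * lam ^ ((n : ℝ) / 2 + 1)) *
            ENNReal.ofReal (((1 + lam * |‖w‖ - t|) ^ 2)⁻¹) := by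
          refine setLIntegral_mono (by fun_prop) fun w hw => ?_
          have h := hC4 lam Lam t w hl hL0 hLl hcase2.le ht hw.2.le
          rw [hK]
          simp only
          rw [← ofReal_norm, ← ENNReal.ofReal_mul hD0]
          apply ENNReal.ofReal_le_ofReal
          refine h.trans ?_
          apply mul_le_of_le_one_right (by positivity)
          apply inv_le_one_of_one_le₀
          apply one_le_pow₀
          have : 0 ≤ Real.sqrt lam * max 0 (hor w / ‖w‖ - 4 * (Lam / lam)) := by positivity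
          linarith
      _ ≤ ∫⁻ w in {w : EE (n + 1) | hor (x - w) ≤ δ ∧ hor w ≤ ‖w‖ / 2},
          ENNReal.ofReal (C4 * lam ^ ((n : ℝ) / 2 + 1)) *
            ENNReal.ofReal (((1 + lam * |‖w‖ - t|) ^ 2)⁻¹) :=
          lintegral_mono_set fun w hw => hw.1
      _ = ENNReal.ofReal (C4 * lam ^ ((n : ℝ) / 2 + 1)) *
          ∫⁻ w in {w : EE (n + 1) | hor (x - w) ≤ δ ∧ hor w ≤ ‖w‖ / 2},
            ENNReal.ofReal (((1 + lam * |‖w‖ - t|) ^ 2)⁻¹) := by
          rw [lintegral_const_mul _ (by fun_prop)]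
      _ ≤ ENNReal.ofReal (C4 * lam ^ ((n : ℝ) / 2 + 1)) * ENNReal.ofReal (C8 * (δ ^ n / lam)) := by
          gcongr
          exact hC8 lam t δ x hl0 hδ0
      _ = ENNReal.ofReal (C4 * lam ^ ((n : ℝ) / 2 + 1) * (C8 * (δ ^ n / lam))) := by
          rw [ENNReal.ofReal_mul hD0]
      _ ≤ _ := by
          apply ENNReal.ofReal_le_ofReal
          have h1 : lam * δ ^ 2 ≤ δ * Lam := by
            rw [le_div_iff₀ hl0] at hδ2
            nlinarith
          have h2 : C4 * lam ^ ((n : ℝ) / 2 + 1) * (C8 * (δ ^ n / lam)) =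
              c3 * (lam * δ ^ 2) ^ ((n : ℝ) / 2) := by
            rw [Real.rpow_add hl0, Real.rpow_one, Real.mul_rpow hl0.le (by positivity),
              ← Real.rpow_natCast δ 2, ← Real.rpow_mul hδ0.le,
              show ((2 : ℕ) : ℝ) * ((n : ℝ) / 2) = (n : ℝ) by push_cast; ring,
              Real.rpow_natCast, hc3]
            field_simp
          rw [h2]
          apply mul_le_mul_of_nonneg_left _ hc30
          exact Real.rpow_le_rpow (by positivity) h1 (by positivity)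
  have hCC : ∫⁻ w in {w : EE (n + 1) | hor (x - w) ≤ δ ∧ ‖w‖ / 2 ≤ hor w ∧ 1 / 4 ≤ ‖w‖}, K w ≤
      ENNReal.ofReal ((c4 + c5) * Y) := by
    by_cases hα : Lam / lam ≤ 1 / 16
    · calc ∫⁻ w in {w : EE (n + 1) | hor (x - w) ≤ δ ∧ ‖w‖ / 2 ≤ hor w ∧ 1 / 4 ≤ ‖w‖}, K w
          ≤ ∫⁻ w in {w : EE (n + 1) | hor (x - w) ≤ δ ∧ ‖w‖ / 2 ≤ hor w ∧ 1 / 4 ≤ ‖w‖},
            ENNReal.ofReal (C5 * 4 ^ (n + 4) * 3 ^ (n + 4)) *
              ENNReal.ofReal (((1 + ‖w‖) ^ (n + 4))⁻¹) := by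
            refine setLIntegral_mono (by fun_prop) fun w hw => ?_
            obtain ⟨_, hw1, hw2⟩ := hw
            have hw0 : 0 < ‖w‖ := by linarith
            have h := hC5 lam Lam t w hl hL0 hLl hcase2.le ht hw2
            have hq : 1 / 2 ≤ hor w / ‖w‖ := by
              rw [le_div_iff₀ hw0]
              linarith
            have h1 := angfar hl0 hα hq n
            have h2 : (1 + ‖w‖) / 3 ≤ 1 + lam * |‖w‖ - t| := by
              have h3 : ‖w‖ - t ≤ |‖w‖ - t| := le_abs_self _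
              have h4 : |‖w‖ - t| ≤ lam * |‖w‖ - t| := by nlinarith [abs_nonneg (‖w‖ - t)]
              have h5 := ht.2
              have h6 := abs_nonneg (‖w‖ - t)
              linarith
            have h3 : ((1 + lam * |‖w‖ - t|) ^ (n + 4))⁻¹ ≤
                3 ^ (n + 4) * ((1 + ‖w‖) ^ (n + 4))⁻¹ := by
              calc ((1 + lam * |‖w‖ - t|) ^ (n + 4))⁻¹ ≤ (((1 + ‖w‖) / 3) ^ (n + 4))⁻¹ := by
                    apply inv_anti₀ (by positivity)
                    exact pow_le_pow_left₀ (by positivity) h2 _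
                _ = _ := by rw [div_pow, inv_div, div_eq_mul_inv]
            rw [hK]
            simp only
            rw [← ofReal_norm, ← ENNReal.ofReal_mul (by positivity)]
            apply ENNReal.ofReal_le_ofReal
            refine h.trans ?_
            have h7 : lam⁻¹ ≤ 1 := inv_le_one_of_one_le₀ hl
            calc C5 * lam ^ ((n : ℝ) / 2 + 1) * ((1 + lam * |‖w‖ - t|) ^ (n + 4))⁻¹ *
                  ((1 + Real.sqrt lam * max 0 (hor w / ‖w‖ - 4 * (Lam / lam))) ^ (n + 4))⁻¹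
                = C5 * ((1 + lam * |‖w‖ - t|) ^ (n + 4))⁻¹ * (lam ^ ((n : ℝ) / 2 + 1) *
                  ((1 + Real.sqrt lam * max 0 (hor w / ‖w‖ - 4 * (Lam / lam))) ^ (n + 4))⁻¹) := by
                  ring
              _ ≤ C5 * (3 ^ (n + 4) * ((1 + ‖w‖) ^ (n + 4))⁻¹) * (4 ^ (n + 4) * lam⁻¹) := by
                  gcongr
              _ ≤ C5 * (3 ^ (n + 4) * ((1 + ‖w‖) ^ (n + 4))⁻¹) * (4 ^ (n + 4) * 1) := by
                  gcongr
              _ = _ := by ring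
        _ ≤ ∫⁻ w : EE (n + 1), ENNReal.ofReal (C5 * 4 ^ (n + 4) * 3 ^ (n + 4)) *
              ENNReal.ofReal (((1 + ‖w‖) ^ (n + 4))⁻¹) := setLIntegral_le_lintegral _ _
        _ = ENNReal.ofReal (C5 * 4 ^ (n + 4) * 3 ^ (n + 4)) *
              ∫⁻ w : EE (n + 1), ENNReal.ofReal (((1 + ‖w‖) ^ (n + 4))⁻¹) := by
            rw [lintegral_const_mul _ (by fun_prop)]
        _ = ENNReal.ofReal c4 := by
            rw [hc4, ENNReal.ofReal_mul (p := C5 * 4 ^ (n + 4) * 3 ^ (n + 4)) (by positivity), hJ,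
              ENNReal.ofReal_toReal htail.ne]
        _ ≤ _ := by
            apply ENNReal.ofReal_le_ofReal
            calc c4 ≤ c4 * Y := le_mul_of_one_le_right hc40 hY1
              _ ≤ _ := mul_le_mul_of_nonneg_right (by linarith) hY0
    · push Not at hα
      have hD0 : 0 ≤ C6 * lam ^ ((n : ℝ) / 2 + 1) := by positivity
      calc ∫⁻ w in {w : EE (n + 1) | hor (x - w) ≤ δ ∧ ‖w‖ / 2 ≤ hor w ∧ 1 / 4 ≤ ‖w‖}, K w
          ≤ ∫⁻ w in {w : EE (n + 1) | hor (x - w) ≤ δ ∧ ‖w‖ / 2 ≤ hor w ∧ 1 / 4 ≤ ‖w‖},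
            ENNReal.ofReal (C6 * lam ^ ((n : ℝ) / 2 + 1)) *
              ENNReal.ofReal (((1 + lam * |‖w‖ - t|) ^ 4)⁻¹) := by
            refine setLIntegral_mono (by fun_prop) fun w hw => ?_
            have h := hC6 lam Lam t w hl hL0 hLl hcase2.le ht hw.2.2
            rw [hK]
            simp only
            rw [← ofReal_norm, ← ENNReal.ofReal_mul hD0]
            apply ENNReal.ofReal_le_ofReal
            refine h.trans ?_
            apply mul_le_of_le_one_right (by positivity)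
            apply inv_le_one_of_one_le₀
            apply one_le_pow₀
            have : 0 ≤ Real.sqrt lam * max 0 (hor w / ‖w‖ - 4 * (Lam / lam)) := by positivity
            linarith
        _ = ENNReal.ofReal (C6 * lam ^ ((n : ℝ) / 2 + 1)) *
            ∫⁻ w in {w : EE (n + 1) | hor (x - w) ≤ δ ∧ ‖w‖ / 2 ≤ hor w ∧ 1 / 4 ≤ ‖w‖},
              ENNReal.ofReal (((1 + lam * |‖w‖ - t|) ^ 4)⁻¹) := by
            rw [lintegral_const_mul _ (by fun_prop)]
        _ ≤ ENNReal.ofReal (C6 * lam ^ ((n : ℝ) / 2 + 1)) *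
            ENNReal.ofReal (C9 * (δ ^ (n - 1) / lam)) := by
            gcongr
            exact hC9 lam t δ x hl ht hδ0 hcase3.le
        _ = ENNReal.ofReal (C6 * lam ^ ((n : ℝ) / 2 + 1) * (C9 * (δ ^ (n - 1) / lam))) := by
            rw [ENNReal.ofReal_mul hD0]
        _ ≤ _ := by
            apply ENNReal.ofReal_le_ofReal
            rw [lt_div_iff₀ hl0] at hα
            have h1 : lam * δ ≤ 16 * (δ * Lam) := by nlinarith
            have h2 : δ ^ (n - 1) ≤ δ ^ ((n : ℝ) / 2) := by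
              rw [← Real.rpow_natCast]
              apply Real.rpow_le_rpow_of_exponent_ge hδ0 (by linarith)
              have h3 : ((n - 1 : ℕ) : ℝ) = (n : ℝ) - 1 := by
                rw [Nat.cast_sub (by omega)]
                simp
              have h4 : (2 : ℝ) ≤ n := by exact_mod_cast hn
              rw [h3]
              linarith
            calc C6 * lam ^ ((n : ℝ) / 2 + 1) * (C9 * (δ ^ (n - 1) / lam))
                ≤ C6 * lam ^ ((n : ℝ) / 2 + 1) * (C9 * (δ ^ ((n : ℝ) / 2) / lam)) := by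
                  gcongr
              _ = C6 * C9 * (lam * δ) ^ ((n : ℝ) / 2) := by
                  rw [Real.rpow_add hl0, Real.rpow_one, Real.mul_rpow hl0.le hδ0.le]
                  field_simp
              _ ≤ C6 * C9 * (16 * (δ * Lam)) ^ ((n : ℝ) / 2) := by
                  gcongr
              _ = c5 * Y := by
                  rw [Real.mul_rpow (by norm_num) (by positivity), hc5, hY]
                  ring
              _ ≤ _ := mul_le_mul_of_nonneg_right (by linarith) hY0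
  have hsub : {w : EE (n + 1) | hor (x - w) ≤ δ} ⊆
      (Metric.closedBall (0 : EE (n + 1)) (1 / 4) ∪
        {w : EE (n + 1) | (hor (x - w) ≤ δ ∧ hor w ≤ ‖w‖ / 2) ∧ 1 / 4 < ‖w‖}) ∪
      {w : EE (n + 1) | hor (x - w) ≤ δ ∧ ‖w‖ / 2 ≤ hor w ∧ 1 / 4 ≤ ‖w‖} := by
    intro w hw
    by_cases h1 : ‖w‖ ≤ 1 / 4
    · left
      left
      rw [Metric.mem_closedBall, dist_zero_right]
      exact h1
    · push Not at h1
      by_cases h2 : hor w ≤ ‖w‖ / 2
      · left
        right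
        exact ⟨⟨hw, h2⟩, h1⟩
      · push Not at h2
        right
        exact ⟨hw, h2.le, h1.le⟩
  calc ∫⁻ w in {w : EE (n + 1) | hor (x - w) ≤ δ}, K w
      ≤ ∫⁻ w in (Metric.closedBall (0 : EE (n + 1)) (1 / 4) ∪
        {w : EE (n + 1) | (hor (x - w) ≤ δ ∧ hor w ≤ ‖w‖ / 2) ∧ 1 / 4 < ‖w‖}) ∪
      {w : EE (n + 1) | hor (x - w) ≤ δ ∧ ‖w‖ / 2 ≤ hor w ∧ 1 / 4 ≤ ‖w‖}, K w :=
        lintegral_mono_set hsub
    _ ≤ (∫⁻ w in Metric.closedBall (0 : EE (n + 1)) (1 / 4) ∪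
        {w : EE (n + 1) | (hor (x - w) ≤ δ ∧ hor w ≤ ‖w‖ / 2) ∧ 1 / 4 < ‖w‖}, K w) +
      ∫⁻ w in {w : EE (n + 1) | hor (x - w) ≤ δ ∧ ‖w‖ / 2 ≤ hor w ∧ 1 / 4 ≤ ‖w‖}, K w :=
        lintegral_union_le _ _ _
    _ ≤ (ENNReal.ofReal (c2 * Y) + ENNReal.ofReal (c3 * Y)) + ENNReal.ofReal ((c4 + c5) * Y) :=
        add_le_add ((lintegral_union_le _ _ _).trans (add_le_add hA hBB)) hCC
    _ = ENNReal.ofReal ((c2 + c3 + (c4 + c5)) * Y) := by
        rw [← ENNReal.ofReal_add (by positivity) (by positivity),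
          ← ENNReal.ofReal_add (by positivity) (by positivity)]
        congr 1
        ring
    _ ≤ _ := by
        apply ENNReal.ofReal_le_ofReal
        exact mul_le_mul_of_nonneg_right (by linarith) hY0

end Pool.Agent.H74.BR
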