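import Pool.Agent.H84.B2.Targets
import Pool.Agent.H19.LS.PLE

/-!
# Plancherel in the first block
-/

set_option autoImplicit false

namespace Pool.Agent.H74.BR

open MeasureTheory Set FourierTransform
open Pool.Agent.H83.LS Pool.Agent.H93.AR Pool.Agent.H54.LS Pool.Agent.H14.LS Pool.Agent.H83.AR
open scoped ENNReal NNReal

theorem bcd_l2 {d : ℕ} {A : ℝ} {f : EE d → ℂ} (hf : BCd A f) : MemLp f 2 := by
  have hfi : Integrable f := bcd_int hf
  rw [memLp_two_iff_integrable_sq_norm hfi.1]
  refine (hfi.norm.const_mul A).mono' ((hfi.1.norm).pow 2) (Filter.Eventually.of_forall fun x => ?_)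
  rw [Real.norm_of_nonneg (by positivity), sq]
  exact mul_le_mul_of_nonneg_right (hf.2.1 x) (norm_nonneg _)

theorem pf_pl1 (hJM : T_JM) : Pool.Agent.H84.B2.T_PL1 := by
  intro a b A R G y hG hA hR
  obtain ⟨hp, hjp, hin, hno, hcj, -, -, -, hmp, -⟩ := hJM a b
  have hA0 : 0 ≤ A := (norm_nonneg _).trans (hA 0)
  have hGi : Integrable G := bcd_int ⟨hG, hA, R, hR⟩
  have hjn : ∀ (ζ : EE a) (η : EE b), ‖jm a b ζ η‖ ^ 2 = ‖ζ‖ ^ 2 + ‖η‖ ^ 2 := by
    intro ζ η
    rw [hno, (hp ζ η).1, (hp ζ η).2]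
  have hj1 : ∀ (ζ : EE a) (η : EE b), ‖ζ‖ ≤ ‖jm a b ζ η‖ := by
    intro ζ η
    refine le_of_sq_le_sq ?_ (norm_nonneg _)
    rw [hjn]
    nlinarith [norm_nonneg η]
  have hj2 : ∀ (ζ : EE a) (η : EE b), ‖η‖ ≤ ‖jm a b ζ η‖ := by
    intro ζ η
    refine le_of_sq_le_sq ?_ (norm_nonneg _)
    rw [hjn]
    nlinarith [norm_nonneg ζ]
  set V : EE a → ℂ := fun ζ => ∫ η : EE b, e (inner ℝ y η) * G (jm a b ζ η) with hV
  have hVm : Measurable V := by
    apply StronglyMeasurable.measurable
    apply StronglyMeasurable.integral_prod_right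
      (f := fun (ζ : EE a) (η : EE b) => e (inner ℝ y η) * G (jm a b ζ η))
    apply Measurable.stronglyMeasurable
    have h1 : Measurable fun p : EE a × EE b => e (inner ℝ y p.2) :=
      measurable_e.comp (by fun_prop)
    have h2 : Measurable fun p : EE a × EE b => G (jm a b p.1 p.2) := hG.comp hcj.measurable
    exact h1.mul h2
  have hVb : ∀ ζ, ‖V ζ‖ ≤ A * (volume : Measure (EE b)).real (Metric.closedBall 0 R) := by
    intro ζ
    have h1 : V ζ = ∫ η in Metric.closedBall (0 : EE b) R, e (inner ℝ y η) * G (jm a b ζ η) := by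
      rw [hV]
      refine (setIntegral_eq_integral_of_forall_compl_eq_zero fun η hη => ?_).symm
      rw [mem_closedBall_zero_iff, not_le] at hη
      rw [hR _ (lt_of_lt_of_le hη (hj2 ζ η)), mul_zero]
    rw [h1]
    apply norm_setIntegral_le_of_norm_le_const measure_closedBall_lt_top
    intro η _
    rw [norm_mul, norm_e, one_mul]
    exact hA _
  have hVs : ∀ ζ, R < ‖ζ‖ → V ζ = 0 := by
    intro ζ hζ
    rw [hV]
    simp only
    rw [integral_eq_zero_of_ae]
    refine Filter.Eventually.of_forall fun η => ?_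
    simp only [Pi.zero_apply]
    rw [hR _ (lt_of_lt_of_le hζ (hj1 ζ η)), mul_zero]
  have hVB : BCd (A * (volume : Measure (EE b)).real (Metric.closedBall 0 R)) V :=
    ⟨hVm, hVb, R, hVs⟩
  have hpl := Pool.Agent.H19.LS.plancherelE V (bcd_int hVB) (bcd_l2 hVB)
  rw [← hpl]
  have hneg := lintegral_neg_eq_self (μ := (volume : Measure (EE a))) fun z => ‖𝓕 V z‖ₑ ^ 2
  rw [← hneg]
  refine lintegral_congr fun z => ?_
  congr 2
  rw [ff_eq]
  have hint : Integrable (fun ξ : EE (a + b) => e (inner ℝ (jm a b z y) ξ) * G ξ) := by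
    refine hGi.bdd_mul (c := 1) (measurable_char _).aestronglyMeasurable
      (Filter.Eventually.of_forall fun ξ => (norm_e _).le)
  have hint2 : Integrable (fun q : EE a × EE b =>
      e (inner ℝ (jm a b z y) (jm a b q.1 q.2)) * G (jm a b q.1 q.2)) (volume.prod volume) :=
    hmp.integrable_comp_of_integrable hint
  have hmeq := hmp.map_eq
  calc ∫ ξ : EE (a + b), e (inner ℝ (jm a b z y) ξ) * G ξ
      = ∫ q : EE a × EE b, e (inner ℝ (jm a b z y) (jm a b q.1 q.2)) * G (jm a b q.1 q.2)
          ∂(volume.prod volume) := by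
        rw [← hmeq, integral_map hcj.measurable.aemeasurable]
        rw [hmeq]
        exact hint.1
    _ = ∫ ζ : EE a, ∫ η : EE b,
          e (inner ℝ (jm a b z y) (jm a b ζ η)) * G (jm a b ζ η) := integral_prod _ hint2
    _ = ∫ ζ : EE a, e (-(inner ℝ ζ (-z))) * V ζ := by
        refine integral_congr_ae (Filter.Eventually.of_forall fun ζ => ?_)
        simp only
        rw [hV]
        simp only
        rw [← integral_const_mul]
        refine integral_congr_ae (Filter.Eventually.of_forall fun η => ?_)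
        simp only
        rw [hin, (hp z y).1, (hp z y).2, (hp ζ η).1, (hp ζ η).2, e_add, inner_neg_right, neg_neg,
          real_inner_comm, mul_assoc]

end Pool.Agent.H74.BR
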