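import Pool.Agent.H79.BR.Targets
import Pool.Agent.H19.LS.PLE

/-!
# Energy near the axis
-/

set_option autoImplicit false

namespace Pool.Agent.H74.BR

open MeasureTheory Set FourierTransform
open Pool.Agent.H83.LS Pool.Agent.H93.AR Pool.Agent.H54.LS Pool.Agent.H14.LS Pool.Agent.H79.BR
  Pool.Agent.H83.AR
open scoped ENNReal NNReal

theorem mj_zero {n : ℕ} {lam Lam t : ℝ} (hl : 0 < lam) {ξ : EE (n + 1)} (h : 2 * lam < ‖ξ‖) :
    mj n lam Lam t ξ = 0 := by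
  have h1 : chi (‖ξ‖ / lam) = 0 := by
    by_contra h2
    have h3 := chi_supp h2
    have h4 : 2 < ‖ξ‖ / lam := by
      rw [lt_div_iff₀ hl]
      exact h
    linarith [h3.2]
  unfold mj
  rw [h1]
  simp

theorem mj_one {n : ℕ} {lam Lam t : ℝ} (ξ : EE (n + 1)) : ‖mj n lam Lam t ξ‖ ≤ 1 := by
  unfold mj
  rw [norm_mul, norm_e, Complex.norm_real, norm_mul, one_mul]
  have h1 : ‖chi (hor ξ / Lam)‖ ≤ 1 := by
    rw [Real.norm_eq_abs]; exact chi_abs_le _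
  have h2 : ‖chi (‖ξ‖ / lam)‖ ≤ 1 := by
    rw [Real.norm_eq_abs]; exact chi_abs_le _
  exact mul_le_one₀ h2 (norm_nonneg _) h1

theorem meas1 (n : ℕ) (lam Lam : ℝ) {F : EE (n + 1) → ℂ} (hF : Measurable F) :
    Measurable fun q : ℝ × EE (n + 1) =>
      ∫ ξ : EE (n + 1), e (inner ℝ q.2 ξ) * (mj n lam Lam q.1 ξ * F ξ) := by
  apply StronglyMeasurable.measurable
  apply StronglyMeasurable.integral_prod_right
    (f := fun (q : ℝ × EE (n + 1)) (ξ : EE (n + 1)) =>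
      e (inner ℝ q.2 ξ) * (mj n lam Lam q.1 ξ * F ξ))
  apply Measurable.stronglyMeasurable
  have h1 : Measurable fun p : (ℝ × EE (n + 1)) × EE (n + 1) =>
      e (inner ℝ p.1.2 p.2) := measurable_e.comp (by fun_prop)
  have h2 : Measurable fun p : (ℝ × EE (n + 1)) × EE (n + 1) => mj n lam Lam p.1.1 p.2 :=
    (mj_meas n lam Lam).comp ((measurable_fst.comp measurable_fst).prodMk measurable_snd)
  have h3 : Measurable fun p : (ℝ × EE (n + 1)) × EE (n + 1) => F p.2 := hF.comp measurable_snd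
  exact h1.mul (h2.mul h3)

theorem meas2 (n : ℕ) (lam Lam : ℝ) {F : EE (n + 1) → ℂ} (hF : Measurable F) :
    Measurable fun q : (ℝ × EE n) × ℝ =>
      ∫ η : EE n, e (inner ℝ q.1.2 η) * (mj n lam Lam q.1.1 (jo η q.2) * F (jo η q.2)) := by
  have hjo : Measurable fun q : EE n × ℝ => jo q.1 q.2 := (mp_jo n).measurable
  apply StronglyMeasurable.measurable
  apply StronglyMeasurable.integral_prod_right
    (f := fun (q : (ℝ × EE n) × ℝ) (η : EE n) =>
      e (inner ℝ q.1.2 η) * (mj n lam Lam q.1.1 (jo η q.2) * F (jo η q.2)))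
  apply Measurable.stronglyMeasurable
  have h0 : Measurable fun p : ((ℝ × EE n) × ℝ) × EE n => jo p.2 p.1.2 :=
    hjo.comp (measurable_snd.prodMk (measurable_snd.comp measurable_fst))
  have h1 : Measurable fun p : ((ℝ × EE n) × ℝ) × EE n =>
      e (inner ℝ p.1.1.2 p.2) := measurable_e.comp (by fun_prop)
  have h2 : Measurable fun p : ((ℝ × EE n) × ℝ) × EE n =>
      mj n lam Lam p.1.1.1 (jo p.2 p.1.2) :=
    (mj_meas n lam Lam).comp
      ((measurable_fst.comp (measurable_fst.comp measurable_fst)).prodMk h0)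
  have h3 : Measurable fun p : ((ℝ × EE n) × ℝ) × EE n => F (jo p.2 p.1.2) := hF.comp h0
  exact h1.mul (h2.mul h3)

theorem lint_jo {n : ℕ} {g : EE (n + 1) → ℝ≥0∞} (hg : Measurable g) :
    ∫⁻ x, g x = ∫⁻ y : EE n, ∫⁻ z : ℝ, g (jo y z) := by
  have h : Measurable fun q : EE n × ℝ => g (jo q.1 q.2) := hg.comp (mp_jo n).measurable
  rw [← (mp_jo n).lintegral_comp hg, lintegral_prod _ h.aemeasurable]

theorem pf_te (hCTE : T_CTE) (hCPZ : T_CPZ) : T_TE := by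
  intro n hn
  obtain ⟨C, hC⟩ := hCTE n hn
  refine ⟨Real.toNNReal (Real.exp (5 * Real.pi)) * C, ?_⟩
  intro lam Lam A δ f hl hL hLl hf hδ
  have hl0 : 0 < lam := by linarith
  have hL0 : 0 < Lam := by linarith
  have hA0 : 0 ≤ A := bcd_nonneg hf
  have hfi : Integrable f := bcd_int hf
  have hf2 : MemLp f 2 := by
    rw [memLp_two_iff_integrable_sq_norm hfi.1]
    refine (hfi.norm.const_mul A).mono' ((hfi.1.norm).pow 2) (Filter.Eventually.of_forall fun x => ?_)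
    rw [Real.norm_of_nonneg (by positivity), sq]
    exact mul_le_mul_of_nonneg_right (hf.2.1 x) (norm_nonneg _)
  set F : EE (n + 1) → ℂ := 𝓕 f with hF
  have hFm : Measurable F := fourier_meas' hfi
  have hFb : ∀ ξ, ‖F ξ‖ ≤ ∫ y, ‖f y‖ := by
    intro ξ
    rw [hF, ff_eq]
    refine (norm_integral_le_integral_norm _).trans (le_of_eq ?_)
    congr 1
    ext y
    rw [norm_mul, norm_e, one_mul]
  have hpl := Pool.Agent.H19.LS.plancherelE f hfi hf2
  set E0 : ℝ := Real.exp (5 * Real.pi) with hE0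
  have hE00 : 0 < E0 := Real.exp_pos _
  -- the weight
  set w : ℝ × EE n → ℝ≥0∞ := fun q => ENNReal.ofReal (Real.exp (-(Real.pi * q.1 ^ 2)) *
      Real.exp (-(Real.pi * (‖q.2‖ ^ 2 / δ ^ 2)))) with hw
  have hwm : Measurable w := by
    rw [hw]
    fun_prop
  set u : ℝ × EE (n + 1) → ℂ := fun q =>
      ∫ ξ : EE (n + 1), e (inner ℝ q.2 ξ) * (mj n lam Lam q.1 ξ * F ξ) with hu
  have hum : Measurable u := meas1 n lam Lam hFm
  set v : (ℝ × EE n) × ℝ → ℂ := fun q =>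
      ∫ η : EE n, e (inner ℝ q.1.2 η) * (mj n lam Lam q.1.1 (jo η q.2) * F (jo η q.2)) with hv
  have hvm : Measurable v := meas2 n lam Lam hFm
  have hjo : Measurable fun q : EE n × ℝ => jo q.1 q.2 := (mp_jo n).measurable
  have hwx : Measurable fun q : ℝ × EE (n + 1) => w (q.1, pr q.2) :=
    hwm.comp (measurable_fst.prodMk (continuous_pr.measurable.comp measurable_snd))
  -- insert the weight
  have h1 : ∫⁻ t in Icc (1 : ℝ) 2, ∫⁻ x in {x : EE (n + 1) | hor x ≤ δ},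
      ‖MM (mj n lam Lam t) f x‖ₑ ^ 2 ≤
      ENNReal.ofReal E0 * ∫⁻ t : ℝ, ∫⁻ x : EE (n + 1), w (t, pr x) * ‖u (t, x)‖ₑ ^ 2 := by
    have hS : MeasurableSet {x : EE (n + 1) | hor x ≤ δ} :=
      measurableSet_le continuous_hor.measurable measurable_const
    calc ∫⁻ t in Icc (1 : ℝ) 2, ∫⁻ x in {x : EE (n + 1) | hor x ≤ δ},
          ‖MM (mj n lam Lam t) f x‖ₑ ^ 2
        ≤ ∫⁻ t in Icc (1 : ℝ) 2, ENNReal.ofReal E0 *
          ∫⁻ x : EE (n + 1), w (t, pr x) * ‖u (t, x)‖ₑ ^ 2 := by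
          refine setLIntegral_mono' measurableSet_Icc fun t ht => ?_
          calc ∫⁻ x in {x : EE (n + 1) | hor x ≤ δ}, ‖MM (mj n lam Lam t) f x‖ₑ ^ 2
              ≤ ∫⁻ x in {x : EE (n + 1) | hor x ≤ δ}, ENNReal.ofReal E0 *
                (w (t, pr x) * ‖u (t, x)‖ₑ ^ 2) := by
                refine setLIntegral_mono' hS fun x hx => ?_
                have e1 : MM (mj n lam Lam t) f x = u (t, x) := rfl
                rw [e1, ← mul_assoc]
                have e2 : (1 : ℝ≥0∞) ≤ ENNReal.ofReal E0 * w (t, pr x) := by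
                  rw [hw]
                  simp only
                  rw [← ENNReal.ofReal_mul hE00.le, hE0, ← Real.exp_add, ← Real.exp_add,
                    ← ENNReal.ofReal_one]
                  apply ENNReal.ofReal_le_ofReal
                  apply Real.one_le_exp
                  have h3 : ‖pr x‖ ≤ δ := by
                    have : hor x = ‖pr x‖ := by
                      conv_lhs => rw [← jo_pr x]
                      exact hor_jo _ _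
                    rw [← this]
                    exact hx
                  have h4 : ‖pr x‖ ^ 2 / δ ^ 2 ≤ 1 := by
                    rw [div_le_one (by positivity)]
                    exact pow_le_pow_left₀ (norm_nonneg _) h3 2
                  have h5 : t ^ 2 ≤ 4 := by nlinarith [ht.1, ht.2]
                  have hpi := Real.pi_pos
                  nlinarith
                calc ‖u (t, x)‖ₑ ^ 2 = 1 * ‖u (t, x)‖ₑ ^ 2 := (one_mul _).symm
                  _ ≤ _ := by gcongr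
            _ ≤ ∫⁻ x : EE (n + 1), ENNReal.ofReal E0 * (w (t, pr x) * ‖u (t, x)‖ₑ ^ 2) :=
                setLIntegral_le_lintegral _ _
            _ = _ := lintegral_const_mul' _ _ ENNReal.ofReal_ne_top
      _ ≤ ∫⁻ t : ℝ, ENNReal.ofReal E0 *
          ∫⁻ x : EE (n + 1), w (t, pr x) * ‖u (t, x)‖ₑ ^ 2 := setLIntegral_le_lintegral _ _
      _ = _ := lintegral_const_mul' _ _ ENNReal.ofReal_ne_top
  -- coordinates and Plancherel
  have h2 : ∀ t : ℝ, ∫⁻ x : EE (n + 1), w (t, pr x) * ‖u (t, x)‖ₑ ^ 2 =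
      ∫⁻ y : EE n, ∫⁻ ζ : ℝ, w (t, y) * ‖v ((t, y), ζ)‖ₑ ^ 2 := by
    intro t
    have hm : Measurable fun x : EE (n + 1) => w (t, pr x) * ‖u (t, x)‖ₑ ^ 2 :=
      (hwx.comp measurable_prodMk_left).mul ((hum.comp measurable_prodMk_left).enorm.pow_const 2)
    rw [lint_jo hm]
    refine lintegral_congr fun y => ?_
    simp only [pr_jo]
    rw [lintegral_const_mul' _ _ ENNReal.ofReal_ne_top,
      lintegral_const_mul' _ _ ENNReal.ofReal_ne_top]
    congr 1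
    refine hCPZ n (∫ y, ‖f y‖) (2 * lam) (fun ξ => mj n lam Lam t ξ * F ξ) y ?_ ?_ ?_
    · exact (mj_meas' n lam Lam t).mul hFm
    · intro ξ
      rw [norm_mul]
      calc ‖mj n lam Lam t ξ‖ * ‖F ξ‖ ≤ 1 * ‖F ξ‖ :=
            mul_le_mul_of_nonneg_right (mj_one ξ) (norm_nonneg _)
        _ ≤ _ := by rw [one_mul]; exact hFb ξ
    · intro ξ hξ
      rw [mj_zero hl0 hξ, zero_mul]
  have h3 : ∫⁻ t : ℝ, ∫⁻ y : EE n, ∫⁻ ζ : ℝ, w (t, y) * ‖v ((t, y), ζ)‖ₑ ^ 2 =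
      ∫⁻ ζ : ℝ, ∫⁻ q : ℝ × EE n, w q * ‖v (q, ζ)‖ₑ ^ 2 := by
    have hm : Measurable fun p : (ℝ × EE n) × ℝ => w p.1 * ‖v p‖ₑ ^ 2 :=
      (hwm.comp measurable_fst).mul (hvm.enorm.pow_const 2)
    have hm2 : Measurable fun q : ℝ × EE n => ∫⁻ ζ : ℝ, w q * ‖v (q, ζ)‖ₑ ^ 2 :=
      hm.lintegral_prod_right'
    have e1 : ∫⁻ t : ℝ, ∫⁻ y : EE n, ∫⁻ ζ : ℝ, w (t, y) * ‖v ((t, y), ζ)‖ₑ ^ 2 =
        ∫⁻ q : ℝ × EE n, ∫⁻ ζ : ℝ, w q * ‖v (q, ζ)‖ₑ ^ 2 :=
      (lintegral_prod _ hm2.aemeasurable).symm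
    rw [e1]
    exact lintegral_lintegral_swap hm.aemeasurable
  have h4 : ∀ ζ : ℝ, ∫⁻ q : ℝ × EE n, w q * ‖v (q, ζ)‖ₑ ^ 2 ≤
      C * ENNReal.ofReal (δ * lam / Lam) * ∫⁻ η : EE n, ‖F (jo η ζ)‖ₑ ^ 2 := by
    intro ζ
    exact hC lam Lam δ ζ _ F hl0 hL0 hδ hFm hFb
  have h5 : ∫⁻ ζ : ℝ, ∫⁻ η : EE n, ‖F (jo η ζ)‖ₑ ^ 2 = ∫⁻ x, ‖f x‖ₑ ^ 2 := by
    rw [← hpl, lint_jo (g := fun ξ => ‖𝓕 f ξ‖ₑ ^ 2) (hFm.enorm.pow_const 2)]
    have hm : Measurable fun q : ℝ × EE n => ‖F (jo q.2 q.1)‖ₑ ^ 2 :=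
      ((hFm.comp (hjo.comp (measurable_snd.prodMk measurable_fst))).enorm.pow_const 2)
    exact lintegral_lintegral_swap (f := fun (ζ : ℝ) (η : EE n) => ‖F (jo η ζ)‖ₑ ^ 2)
      hm.aemeasurable
  calc ∫⁻ t in Icc (1 : ℝ) 2, ∫⁻ x in {x : EE (n + 1) | hor x ≤ δ},
      ‖MM (mj n lam Lam t) f x‖ₑ ^ 2
      ≤ ENNReal.ofReal E0 * ∫⁻ t : ℝ, ∫⁻ x : EE (n + 1), w (t, pr x) * ‖u (t, x)‖ₑ ^ 2 := h1
    _ = ENNReal.ofReal E0 * ∫⁻ ζ : ℝ, ∫⁻ q : ℝ × EE n, w q * ‖v (q, ζ)‖ₑ ^ 2 := by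
        rw [lintegral_congr h2, h3]
    _ ≤ ENNReal.ofReal E0 * ∫⁻ ζ : ℝ, C * ENNReal.ofReal (δ * lam / Lam) *
          ∫⁻ η : EE n, ‖F (jo η ζ)‖ₑ ^ 2 := by
        gcongr with ζ
        exact h4 ζ
    _ = ENNReal.ofReal E0 * (C * ENNReal.ofReal (δ * lam / Lam) * ∫⁻ x, ‖f x‖ₑ ^ 2) := by
        rw [lintegral_const_mul' _ _ (ENNReal.mul_ne_top ENNReal.coe_ne_top
          ENNReal.ofReal_ne_top), h5]
    _ = _ := by
        rw [ENNReal.coe_mul, ENNReal.ofReal]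
        ring

end Pool.Agent.H74.BR
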